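import Pool.Agent.Q307.PPC.Main

/-!
# Countable obstructions to pp-constructibility from the two-element path

The answer to Q1 is yes, also if `B` is allowed to have infinitely many relations: by compactness a
structure with finite domain has a pp-construction from `P₂` if all its finite reducts have one, and
pp-constructibility is transitive.
-/

set_option autoImplicit false

namespace Pool.Agent.Results.MP_8f9fef_lc.CountableFamily

open Pool.Agent.Q307.PPC

/-- There is a sequence of finite structures `C i` (finite signatures, finite domains) such that
for every structure `B` with a finite domain and any signature, `B` has no pp-construction from `P₂`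
if and only if some `C i` has a pp-construction from `B`. -/
theorem result : ∃ C : ℕ → Str, (∀ i, Finite (C i).sig.sym ∧ Finite (C i).dom) ∧
    ∀ B : Str, Finite B.dom → (¬ Constructs P2 B ↔ ∃ i, Constructs B (C i)) :=
  main

end Pool.Agent.Results.MP_8f9fef_lc.CountableFamily
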